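import Mathlib

set_option autoImplicit false
set_option maxRecDepth 100000

/-!
# A cubic graph with upper minus domination number larger than the signed domination number
-/

namespace Pool.Agent.Results.MP_260dff_co.CubicSixteen

variable {V : Type} [Fintype V] [DecidableEq V]

/-- `f(N[v])`: the sum of `f` over the closed neighbourhood of `v`. -/
def closedSum (G : SimpleGraph V) [DecidableRel G.Adj] (f : V → ℤ) (v : V) : ℤ :=
  ∑ u ∈ Finset.univ.filter (fun u => u = v ∨ G.Adj v u), f u

/-- The weight `w(f) = f(V)`. -/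
def weight (f : V → ℤ) : ℤ := ∑ u, f u

/-- Signed dominating functions. -/
def IsSigned (G : SimpleGraph V) [DecidableRel G.Adj] (f : V → ℤ) : Prop :=
  (∀ v, f v = -1 ∨ f v = 1) ∧ ∀ v, 1 ≤ closedSum G f v

/-- Minus dominating functions. -/
def IsMinus (G : SimpleGraph V) [DecidableRel G.Adj] (f : V → ℤ) : Prop :=
  (∀ v, f v = -1 ∨ f v = 0 ∨ f v = 1) ∧ ∀ v, 1 ≤ closedSum G f v

/-- Minimal minus dominating functions. -/
def IsMinimalMinus (G : SimpleGraph V) [DecidableRel G.Adj] (f : V → ℤ) : Prop :=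
  IsMinus G f ∧ ∀ g : V → ℤ, IsMinus G g → (∀ u, g u ≤ f u) → g = f

/-- The signed domination number `γ_s(G)`: the minimum weight of a signed dominating function. -/
noncomputable def signedNumber (G : SimpleGraph V) [DecidableRel G.Adj] : ℤ :=
  sInf {w : ℤ | ∃ f : V → ℤ, IsSigned G f ∧ weight f = w}

/-- The upper minus domination number `Γ⁻(G)`: the maximum weight of a minimal minus dominating
function. -/
noncomputable def upperMinus (G : SimpleGraph V) [DecidableRel G.Adj] : ℤ :=
  sSup {w : ℤ | ∃ f : V → ℤ, IsMinimalMinus G f ∧ weight f = w}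

omit [DecidableEq V] in
lemma abs_weight_le {f : V → ℤ} (hf : ∀ v, -1 ≤ f v ∧ f v ≤ 1) :
    -(Fintype.card V : ℤ) ≤ weight f ∧ weight f ≤ Fintype.card V := by
  constructor
  · have : ∑ _v : V, (-1 : ℤ) ≤ ∑ v, f v := Finset.sum_le_sum (fun v _ => (hf v).1)
    simpa [weight] using this
  · have : ∑ v, f v ≤ ∑ _v : V, (1 : ℤ) := Finset.sum_le_sum (fun v _ => (hf v).2)
    simpa [weight] using this

lemma le_upperMinus (G : SimpleGraph V) [DecidableRel G.Adj] {f : V → ℤ}
    (hf : IsMinimalMinus G f) : weight f ≤ upperMinus G := by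
  apply le_csSup
  · refine ⟨Fintype.card V, ?_⟩
    rintro w ⟨g, hg, rfl⟩
    refine (abs_weight_le (fun v => ?_)).2
    rcases hg.1.1 v with h | h | h <;> omega
  · exact ⟨f, hf, rfl⟩

lemma signedNumber_le (G : SimpleGraph V) [DecidableRel G.Adj] {f : V → ℤ}
    (hf : IsSigned G f) : signedNumber G ≤ weight f := by
  apply csInf_le
  · refine ⟨-(Fintype.card V : ℤ), ?_⟩
    rintro w ⟨g, hg, rfl⟩
    refine (abs_weight_le (fun v => ?_)).1
    rcases hg.1 v with h | h <;> omega
  · exact ⟨f, hf, rfl⟩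

/-- Every vertex of value at least `0` has a closed neighbour `u` with `f(N[u]) = 1`: then `f` is
minimal. -/
lemma isMinimal_of (G : SimpleGraph V) [DecidableRel G.Adj] {f : V → ℤ} (hf : IsMinus G f)
    (h : ∀ v, f v = -1 ∨ ∃ u, (v = u ∨ G.Adj u v) ∧ closedSum G f u = 1) :
    IsMinimalMinus G f := by
  refine ⟨hf, fun g hg hle => ?_⟩
  funext v
  by_contra hne
  have hlt : g v < f v := lt_of_le_of_ne (hle v) hne
  rcases h v with h1 | ⟨u, hu, hsum⟩
  · rcases hg.1 v with h' | h' | h' <;> omega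
  · have h3 : closedSum G g u < closedSum G f u := by
      unfold closedSum
      apply Finset.sum_lt_sum (fun w _ => hle w)
      refine ⟨v, ?_, hlt⟩
      simp only [Finset.mem_filter, Finset.mem_univ, true_and]
      exact hu
    have h4 := hg.2 u
    omega

/-- The edges of the graph. -/
def edges : List (Fin 16 × Fin 16) :=
  [(0,1),(0,2),(0,3),(1,4),(1,5),(2,6),(2,3),(3,7),(4,8),(4,9),(5,10),(5,11),(6,9),(6,12),(7,8),
   (7,11),(8,13),(9,10),(10,14),(11,15),(12,15),(12,13),(13,14),(14,15)]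

/-- A cubic graph on 16 vertices. -/
def graph : SimpleGraph (Fin 16) where
  Adj u v := (u, v) ∈ edges ∨ (v, u) ∈ edges
  symm := ⟨fun _ _ h => h.symm⟩
  loopless := ⟨by unfold edges; decide +kernel⟩

instance : DecidableRel graph.Adj := fun u v =>
  inferInstanceAs (Decidable ((u, v) ∈ edges ∨ (v, u) ∈ edges))

/-- A minimal minus dominating function of weight 9. -/
def f : Fin 16 → ℤ := ![1, 1, 1, 0, 1, 1, -1, 1, 1, 1, 0, -1, 1, 1, 1, 0]

/-- A signed dominating function of weight 8. -/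
def s : Fin 16 → ℤ := ![-1, 1, 1, 1, 1, 1, 1, 1, 1, -1, 1, -1, 1, -1, 1, 1]

lemma cubic : ∀ v, graph.degree v = 3 := by decide +kernel

lemma f_values : ∀ v, f v = -1 ∨ f v = 0 ∨ f v = 1 := by decide +kernel

lemma f_dom : ∀ v, 1 ≤ closedSum graph f v := by decide +kernel

lemma f_crit : ∀ v, f v = -1 ∨ ∃ u, (v = u ∨ graph.Adj u v) ∧ closedSum graph f u = 1 := by
  decide +kernel

lemma f_weight : weight f = 9 := by decide +kernel

lemma s_values : ∀ v, s v = -1 ∨ s v = 1 := by decide +kernel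

lemma s_dom : ∀ v, 1 ≤ closedSum graph s v := by decide +kernel

lemma s_weight : weight s = 8 := by decide +kernel

/-- **Q1 fails.** There is a cubic graph on 16 vertices with `γ_s(G) ≤ 8 < 9 ≤ Γ⁻(G)`. -/
theorem result :
    (∃ (G : SimpleGraph (Fin 16)) (_ : DecidableRel G.Adj), (∀ v, G.degree v = 3) ∧
      signedNumber G ≤ 8 ∧ 9 ≤ upperMinus G) ∧
    ¬ ∀ (V : Type) [Fintype V] [DecidableEq V] (G : SimpleGraph V) [DecidableRel G.Adj],
      (∀ v, G.degree v = 3) → upperMinus G ≤ signedNumber G := by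
  have h1 : signedNumber graph ≤ 8 := s_weight ▸ signedNumber_le graph ⟨s_values, s_dom⟩
  have h2 : 9 ≤ upperMinus graph :=
    f_weight ▸ le_upperMinus graph (isMinimal_of graph ⟨f_values, f_dom⟩ f_crit)
  refine ⟨⟨graph, inferInstance, cubic, h1, h2⟩, fun h => ?_⟩
  have h3 := h (Fin 16) graph cubic
  omega

end Pool.Agent.Results.MP_260dff_co.CubicSixteen
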